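import Pool.Agent.MP_ce43bb_an.H78.Base

/-! First order perturbation of commuting projections. -/

set_option linter.unusedSectionVars false
set_option linter.unusedVariables false

open scoped InnerProductSpace

noncomputable section

namespace Pool.Agent.MP_ce43bb_an.H64
open Pool.Agent.MP_ce43bb_an.H78

section Alg
variable {A : Type} [NormedRing A] [NormedAlgebra ℂ A] {V : Type} [Fintype V] [DecidableEq V]

theorem norm_sum_le_card {ι : Type} (s : Finset ι) (f : ι → A) {c m : ℝ} (hc : 0 ≤ c)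
    (hm : (s.card : ℝ) ≤ m) (h : ∀ i ∈ s, ‖f i‖ ≤ c) : ‖∑ i ∈ s, f i‖ ≤ m * c := by
  calc ‖∑ i ∈ s, f i‖ ≤ ∑ i ∈ s, ‖f i‖ := norm_sum_le _ _
    _ ≤ ∑ i ∈ s, c := Finset.sum_le_sum h
    _ = s.card * c := by simp
    _ ≤ m * c := by gcongr

theorem norm_sand {a b T : A} (ha : ‖a‖ ≤ 1) (hb : ‖b‖ ≤ 1) : ‖a * T * b‖ ≤ ‖T‖ := by
  calc ‖a * T * b‖ ≤ ‖a‖ * ‖T‖ * ‖b‖ :=
        (norm_mul_le _ _).trans (by gcongr; exact norm_mul_le _ _)
    _ ≤ 1 * ‖T‖ * 1 := by gcongr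
    _ = ‖T‖ := by ring

theorem card_le_of {Q : ℝ} (hVQ : (Fintype.card V : ℝ) ≤ Q) (F : Finset V) :
    (F.card : ℝ) ≤ Q :=
  le_trans (by exact_mod_cast F.card_le_univ) hVQ

theorem inv_le {Q : ℝ} (hQ : 0 < Q) {ω : V → ℂ} (hω : ∀ a b, a ≠ b → 1 / Q ≤ ‖ω a - ω b‖)
    (a b : V) : ‖(ω a - ω b)⁻¹‖ ≤ Q := by
  by_cases h : a = b
  · subst h; simp [hQ.le]
  · have h1 := hω a b h
    have h2 : 0 < 1 / Q := by positivity
    rw [norm_inv]
    calc ‖ω a - ω b‖⁻¹ ≤ (1 / Q)⁻¹ := by gcongr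
      _ = Q := by simp

/-- The first order corrector. -/
def corr (ω : V → ℂ) (p : V → A) (D : A) : A :=
  ∑ c, ∑ c', (ω c - ω c')⁻¹ • (p c * D * p c')

theorem norm_corr_le {Q : ℝ} (hQ : 0 < Q) (hVQ : (Fintype.card V : ℝ) ≤ Q) {ω : V → ℂ}
    (hω : ∀ a b, a ≠ b → 1 / Q ≤ ‖ω a - ω b‖) {p : V → A} (hp1 : ∀ a, ‖p a‖ ≤ 1) (D : A) :
    ‖corr ω p D‖ ≤ Q * (Q * (Q * ‖D‖)) := by
  unfold corr
  refine norm_sum_le_card _ _ (by positivity) (card_le_of hVQ _) fun c _ => ?_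
  refine norm_sum_le_card _ _ (by positivity) (card_le_of hVQ _) fun c' _ => ?_
  rw [norm_smul]
  have := inv_le hQ hω c c'
  have := norm_sand (T := D) (hp1 c) (hp1 c')
  gcongr

theorem left_pick {p : V → A} (hpp : ∀ a, p a * p a = p a) (hpo : ∀ a b, a ≠ b → p a * p b = 0)
    (c : V) (F : Finset V) (f : V → ℂ) (T : V → A) :
    p c * ∑ a ∈ F, f a • (p a * T a) = if c ∈ F then f c • (p c * T c) else 0 := by
  rw [Finset.mul_sum]
  have : ∀ a ∈ F, p c * f a • (p a * T a) = if c = a then f c • (p c * T c) else 0 := by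
    intro a _
    split_ifs with h
    · subst h; rw [mul_smul_comm, ← mul_assoc, hpp]
    · rw [mul_smul_comm, ← mul_assoc, hpo c a h]; simp
  rw [Finset.sum_congr rfl this, Finset.sum_ite_eq]

theorem right_pick {p : V → A} (hpp : ∀ a, p a * p a = p a) (hpo : ∀ a b, a ≠ b → p a * p b = 0)
    (c : V) (F : Finset V) (f : V → ℂ) (T : V → A) :
    (∑ a ∈ F, f a • (T a * p a)) * p c = if c ∈ F then f c • (T c * p c) else 0 := by
  rw [Finset.sum_mul]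
  have : ∀ a ∈ F, (f a • (T a * p a)) * p c = if c = a then f c • (T c * p c) else 0 := by
    intro a _
    split_ifs with h
    · subst h; rw [smul_mul_assoc, mul_assoc, hpp]
    · rw [smul_mul_assoc, mul_assoc, hpo a c (Ne.symm h)]; simp
  rw [Finset.sum_congr rfl this, Finset.sum_ite_eq]

theorem sand_corr {p : V → A} (hpp : ∀ a, p a * p a = p a) (hpo : ∀ a b, a ≠ b → p a * p b = 0)
    (ω : V → ℂ) (D : A) (c c' : V) :
    p c * corr ω p D * p c' = (ω c - ω c')⁻¹ • (p c * D * p c') := by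
  unfold corr
  have h1 : ∀ a, ∑ b, (ω a - ω b)⁻¹ • (p a * D * p b) =
      (1 : ℂ) • (p a * ∑ b, (ω a - ω b)⁻¹ • (D * p b)) := by
    intro a
    rw [one_smul, Finset.mul_sum]
    refine Finset.sum_congr rfl fun b _ => ?_
    rw [mul_smul_comm, mul_assoc]
  simp only [h1]
  rw [left_pick hpp hpo c Finset.univ (fun _ => 1), if_pos (Finset.mem_univ _), one_smul, mul_assoc,
    right_pick hpp hpo c' Finset.univ (fun b => (ω c - ω b)⁻¹) (fun _ => D),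
    if_pos (Finset.mem_univ _), mul_smul_comm, mul_assoc]

theorem lemmaA {Q ε : ℝ} (hQ : 0 < Q) (hε : 0 ≤ ε) (hVQ : (Fintype.card V : ℝ) ≤ Q) {ω : V → ℂ}
    (hω : ∀ a b, a ≠ b → 1 / Q ≤ ‖ω a - ω b‖) {p pt : V → A} {Ut : A} (hp1 : ∀ a, ‖p a‖ ≤ 1)
    (hpp : ∀ a, p a * p a = p a) (hpo : ∀ a b, a ≠ b → p a * p b = 0) (hps : ∑ a, p a = 1)
    (hU : ‖Ut - ∑ a, ω a • p a‖ ≤ ε) (hpt : ∀ a, ‖pt a - p a‖ ≤ ε)
    (hcU : ∀ a, Commute (pt a) Ut) (F : Finset V) :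
    ‖(∑ a ∈ F, p a) * ((∑ a ∈ F, (pt a - p a)) - corr ω p (Ut - ∑ a, ω a • p a)) *
      (1 - ∑ a ∈ F, p a)‖ ≤ Q * (Q * (Q * (2 * (ε * (Q * ε))))) := by
  obtain ⟨U, hUd⟩ : ∃ U, U = ∑ a, ω a • p a := ⟨_, rfl⟩
  obtain ⟨G, hG⟩ : ∃ G, G = ∑ a ∈ F, p a := ⟨_, rfl⟩
  obtain ⟨E, hE⟩ : ∃ E, E = ∑ a ∈ F, (pt a - p a) := ⟨_, rfl⟩
  obtain ⟨D, hD⟩ : ∃ D, D = Ut - U := ⟨_, rfl⟩
  rw [← hUd] at hU ⊢
  rw [← hD] at hU ⊢
  rw [← hE]
  have hEn : ‖E‖ ≤ Q * ε := by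
    rw [hE]; exact norm_sum_le_card _ _ hε (card_le_of hVQ _) fun a _ => hpt a
  have hcomm : (U + D) * (G + E) = (G + E) * (U + D) := by
    have h1 : U + D = Ut := by rw [hD]; abel
    have h2 : G + E = ∑ a ∈ F, pt a := by
      rw [hG, hE, ← Finset.sum_add_distrib]; simp
    rw [h1, h2]
    exact (Commute.sum_left _ _ _ fun a _ => hcU a).symm.eq
  have hpU : ∀ c, p c * U = ω c • p c := by
    intro c
    have := left_pick hpp hpo c Finset.univ ω (fun _ => 1)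
    simpa [hUd] using this
  have hUp : ∀ c, U * p c = ω c • p c := by
    intro c
    have := right_pick hpp hpo c Finset.univ ω (fun _ => 1)
    simpa [hUd] using this
  have hpG : ∀ c ∈ F, p c * G = p c := by
    intro c hc
    have := left_pick hpp hpo c F (fun _ => 1) (fun _ => 1)
    simpa [hG, hc] using this
  have hGp : ∀ c ∉ F, G * p c = 0 := by
    intro c hc
    have := right_pick hpp hpo c F (fun _ => 1) (fun _ => 1)
    simpa [hG, hc] using this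
  have h1G : 1 - ∑ a ∈ F, p a = ∑ a ∈ Fᶜ, p a := by
    rw [← hps, ← Finset.sum_add_sum_compl F]; abel
  rw [h1G, Finset.sum_mul, Finset.sum_mul]
  refine norm_sum_le_card _ _ (by positivity) (card_le_of hVQ _) fun c hc => ?_
  rw [Finset.mul_sum]
  refine norm_sum_le_card _ _ (by positivity) (card_le_of hVQ _) fun c' hc' => ?_
  have hc'' : c' ∉ F := Finset.mem_compl.mp hc'
  have hne : c ≠ c' := fun h => hc'' (h ▸ hc)
  have hω0 : ω c - ω c' ≠ 0 := by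
    intro h
    have := hω c c' hne
    rw [h, norm_zero] at this
    have : 0 < 1 / Q := by positivity
    linarith
  have hoc : p c * p c' = 0 := hpo c c' hne
  have key : (ω c - ω c') • (p c * E * p c') =
      p c * D * p c' - p c * (D * E - E * D) * p c' := by
    have h := congrArg (fun T => p c * T * p c') hcomm
    have e1 : p c * ((U + D) * (G + E)) * p c' =
        ω c • (p c * E * p c') + p c * (D * E) * p c' := by
      have : p c * ((U + D) * (G + E)) * p c' = (p c * U) * (G * p c') + (p c * U) * E * p c'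
          + p c * D * (G * p c') + p c * (D * E) * p c' := by noncomm_ring
      rw [this, hGp c' hc'', hpU c]; simp [smul_mul_assoc]
    have e2 : p c * ((G + E) * (U + D)) * p c' =
        ω c' • (p c * E * p c') + p c * D * p c' + p c * (E * D) * p c' := by
      have : p c * ((G + E) * (U + D)) * p c' = (p c * G) * (U * p c') + p c * E * (U * p c')
          + (p c * G) * D * p c' + p c * (E * D) * p c' := by noncomm_ring
      rw [this, hpG c hc, hUp c']; simp [mul_smul_comm, hoc]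
    simp only [e1, e2] at h
    rw [sub_smul, mul_sub, sub_mul]
    have h' : ω c • (p c * E * p c') = ω c' • (p c * E * p c') + p c * D * p c'
        + p c * (E * D) * p c' - p c * (D * E) * p c' := by rw [← h]; abel
    rw [h']; abel
  have key2 : p c * (E - corr ω p D) * p c' =
      -((ω c - ω c')⁻¹ • (p c * (D * E - E * D) * p c')) := by
    rw [mul_sub, sub_mul, sand_corr hpp hpo]
    have : p c * E * p c' = (ω c - ω c')⁻¹ • ((ω c - ω c') • (p c * E * p c')) := by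
      rw [smul_smul, inv_mul_cancel₀ hω0, one_smul]
    rw [this, key, smul_sub]; abel
  rw [key2, norm_neg, norm_smul]
  have h3 := inv_le hQ hω c c'
  have h4 := norm_sand (T := D * E - E * D) (hp1 c) (hp1 c')
  have h5 : ‖D * E - E * D‖ ≤ 2 * (ε * (Q * ε)) := by
    have a1 : ‖D * E‖ ≤ ε * (Q * ε) := (norm_mul_le _ _).trans (by gcongr)
    have a2 : ‖E * D‖ ≤ (Q * ε) * ε := (norm_mul_le _ _).trans (by gcongr)
    have := norm_sub_le (D * E) (E * D)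
    linarith
  have h6 := h4.trans h5
  gcongr

end Alg

section Hilb
variable {H : Type} [NormedAddCommGroup H] [InnerProductSpace ℂ H] [CompleteSpace H]
  {V : Type} [Fintype V] [DecidableEq V]

theorem apply_le {T : H →L[ℂ] H} {y : H} {a b : ℝ} (ha : ‖T‖ ≤ a) (hb : ‖y‖ ≤ b) :
    ‖T y‖ ≤ a * b :=
  (T.le_opNorm y).trans (mul_le_mul ha hb (norm_nonneg _) ((norm_nonneg _).trans ha))

theorem isStarProjection_sum {ι : Type} [DecidableEq ι] (s : Finset ι) (f : ι → H →L[ℂ] H)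
    (hf : ∀ i, IsStarProjection (f i)) (ho : ∀ i j, i ≠ j → f i * f j = 0) :
    IsStarProjection (∑ i ∈ s, f i) := by
  induction s using Finset.induction_on with
  | empty => simpa using IsStarProjection.zero _
  | insert a s ha ih =>
    rw [Finset.sum_insert ha]
    refine (hf a).add ih ?_
    rw [Finset.mul_sum]
    exact Finset.sum_eq_zero fun j hj => ho a j fun h => ha (h ▸ hj)

theorem oneSided {Q ε : ℝ} (hQ : 0 < Q) (hε : 0 ≤ ε) (hVQ : (Fintype.card V : ℝ) ≤ Q) {ω : V → ℂ}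
    (hω : ∀ a b, a ≠ b → 1 / Q ≤ ‖ω a - ω b‖) {p pt pR : V → H →L[ℂ] H} {Ut : H →L[ℂ] H}
    (hp : ∀ a, IsStarProjection (p a)) (hpo : ∀ a b, a ≠ b → p a * p b = 0) (hps : ∑ a, p a = 1)
    (hpR : ∀ a, IsStarProjection (pR a)) (hpRo : ∀ a b, a ≠ b → pR a * pR b = 0)
    (hU : ‖Ut - ∑ a, ω a • p a‖ ≤ ε) (hpt : ∀ a, ‖pt a - p a‖ ≤ ε)
    (hcU : ∀ a, Commute (pt a) Ut)
    (c1 : ∀ a b, Commute (p a) (pR b)) (c2 : ∀ a b, Commute (pt a) (pR b))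
    (c3 : ∀ b, Commute Ut (pR b))
    (F : V → Finset V) (y : H) (hy : ‖y‖ ≤ Q) (hF : ∀ b, ∀ a ∈ F b, (p a * pR b) y = 0) :
    ‖(∑ b, ∑ a ∈ F b, p a * pR b) ((∑ b, ∑ a ∈ F b, (pt a - p a) * pR b) y) -
      (∑ b, ∑ a ∈ F b, p a * pR b) (corr ω p (Ut - ∑ a, ω a • p a) y)‖ ≤
      Q * (Q * (Q * (Q * (2 * (ε * (Q * ε))))) * Q) := by
  obtain ⟨h, hh⟩ : ∃ h, h = corr ω p (Ut - ∑ a, ω a • p a) := ⟨_, rfl⟩
  obtain ⟨G, hG⟩ : ∃ G : V → H →L[ℂ] H, G = fun b => ∑ a ∈ F b, p a := ⟨_, rfl⟩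
  obtain ⟨E, hE⟩ : ∃ E : V → H →L[ℂ] H, E = fun b => ∑ a ∈ F b, (pt a - p a) := ⟨_, rfl⟩
  have hp1 : ∀ a, ‖p a‖ ≤ 1 := fun a => IsStarProjection.norm_le _ (hp a)
  have hpR1 : ∀ a, ‖pR a‖ ≤ 1 := fun a => IsStarProjection.norm_le _ (hpR a)
  have hA : ∀ b, ‖G b * (E b - h) * (1 - G b)‖ ≤ Q * (Q * (Q * (2 * (ε * (Q * ε))))) := by
    intro b
    rw [hG, hE, hh]
    exact lemmaA hQ hε hVQ hω hp1 (fun a => (hp a).isIdempotentElem.eq) hpo hps hU hpt hcU (F b)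
  have e1 : (∑ b, ∑ a ∈ F b, p a * pR b) = ∑ b, G b * pR b := by
    simp only [hG, Finset.sum_mul]
  have e2 : (∑ b, ∑ a ∈ F b, (pt a - p a) * pR b) = ∑ b, E b * pR b := by
    simp only [hE, Finset.sum_mul]
  have cE : ∀ b b', Commute (E b) (pR b') := by
    intro b b'; rw [hE]
    exact Commute.sum_left _ _ _ fun a _ => (c2 a b').sub_left (c1 a b')
  have ch : ∀ b, Commute h (pR b) := by
    intro b; rw [hh]; unfold corr
    refine Commute.sum_left _ _ _ fun c _ => Commute.sum_left _ _ _ fun c' _ => ?_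
    refine Commute.smul_left ?_ _
    refine ((c1 c b).mul_left ?_).mul_left (c1 c' b)
    exact (c3 b).sub_left (Commute.sum_left _ _ _ fun a _ => (c1 a b).smul_left _)
  have hG0 : ∀ b, (G b * pR b) y = 0 := by
    intro b
    rw [hG]; simp only [Finset.sum_mul, ContinuousLinearMap.sum_apply]
    exact Finset.sum_eq_zero fun a ha => hF b a ha
  have e3 : (∑ b, G b * pR b) * (∑ b, E b * pR b) = ∑ b, G b * E b * pR b := by
    rw [Finset.sum_mul]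
    refine Finset.sum_congr rfl fun b _ => ?_
    rw [Finset.mul_sum, Finset.sum_eq_single b]
    · rw [mul_assoc, ← mul_assoc (pR b), ← (cE b b).eq, mul_assoc (E b),
        (hpR b).isIdempotentElem.eq, mul_assoc]
    · intro b' _ hb'
      rw [mul_assoc, ← mul_assoc (pR b), ← (cE b' b).eq, mul_assoc (E b'),
        hpRo b b' (Ne.symm hb')]
      simp
    · simp
  have e4 : (∑ b, G b * pR b) * h = ∑ b, G b * h * pR b := by
    rw [Finset.sum_mul]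
    refine Finset.sum_congr rfl fun b _ => ?_
    rw [mul_assoc, ← (ch b).eq, mul_assoc]
  rw [← hh, e1, e2, ← ContinuousLinearMap.mul_apply, ← ContinuousLinearMap.mul_apply, e3, e4,
    ← ContinuousLinearMap.sub_apply, ← Finset.sum_sub_distrib, ContinuousLinearMap.sum_apply]
  have e5 : ∀ b, (G b * E b * pR b - G b * h * pR b) y =
      (G b * (E b - h) * (1 - G b)) (pR b y) := by
    intro b
    have : G b * E b * pR b - G b * h * pR b =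
        G b * (E b - h) * (1 - G b) * pR b + G b * (E b - h) * (G b * pR b) := by noncomm_ring
    rw [this, ContinuousLinearMap.add_apply, ContinuousLinearMap.mul_apply _ (G b * pR b), hG0,
      map_zero, add_zero, ContinuousLinearMap.mul_apply]
  simp only [e5]
  calc ‖∑ b, (G b * (E b - h) * (1 - G b)) (pR b y)‖
      ≤ ∑ b, ‖(G b * (E b - h) * (1 - G b)) (pR b y)‖ := norm_sum_le _ _
    _ ≤ ∑ b : V, Q * (Q * (Q * (2 * (ε * (Q * ε))))) * Q := by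
        refine Finset.sum_le_sum fun b _ => apply_le (hA b) ?_
        simpa using apply_le (hpR1 b) hy
    _ = Fintype.card V * (Q * (Q * (Q * (2 * (ε * (Q * ε))))) * Q) := by simp
    _ ≤ _ := by gcongr

theorem sum_pairs_left {M : Type} [AddCommMonoid M] (N : Finset (V × V)) (f : V → V → M) :
    ∑ ab ∈ N, f ab.1 ab.2 = ∑ b, ∑ a ∈ Finset.univ.filter (fun a => (a, b) ∈ N), f a b := by
  simp only [Finset.sum_filter]
  rw [Finset.sum_comm, ← Finset.sum_product', Finset.univ_product_univ, ← Finset.sum_filter]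
  congr 1
  ext ab; simp

theorem sum_pairs_right {M : Type} [AddCommMonoid M] (N : Finset (V × V)) (f : V → V → M) :
    ∑ ab ∈ N, f ab.1 ab.2 = ∑ a, ∑ b ∈ Finset.univ.filter (fun b => (a, b) ∈ N), f a b := by
  simp only [Finset.sum_filter]
  rw [← Finset.sum_product', Finset.univ_product_univ, ← Finset.sum_filter]
  congr 1
  ext ab; simp

theorem commute_corr {ω : V → ℂ} {p : V → H →L[ℂ] H} {Ut T : H →L[ℂ] H}
    (c1 : ∀ a, Commute (p a) T) (c3 : Commute Ut T) :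
    Commute (corr ω p (Ut - ∑ a, ω a • p a)) T := by
  unfold corr
  refine Commute.sum_left _ _ _ fun c _ => Commute.sum_left _ _ _ fun c' _ => ?_
  refine Commute.smul_left ?_ _
  refine ((c1 c).mul_left ?_).mul_left (c1 c')
  exact c3.sub_left (Commute.sum_left _ _ _ fun a _ => (c1 a).smul_left _)

end Hilb

theorem numeric {Q τ : ℝ} (hQ : 100 ≤ Q) (hτ : 0 < τ) (hsmall : Q ^ 50 * τ ≤ 1) :
    Q * τ ≤ 1 ∧ τ ≤ 1 := by
  have h1 : Q ≤ Q ^ 50 := le_self_pow₀ (by linarith) (by norm_num)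
  have h2 : Q * τ ≤ 1 := le_trans (by gcongr) hsmall
  refine ⟨h2, ?_⟩
  nlinarith

theorem lemmaL1 {H : Type} [NormedAddCommGroup H] [InnerProductSpace ℂ H] [CompleteSpace H]
    {V : Type} [Fintype V] [DecidableEq V] {n : ℕ}
    (Ω : H) (hΩ : ‖Ω‖ = 1) (Q τ : ℝ) (hQ : 100 ≤ Q)
    (hVQ : (Fintype.card V : ℝ) ≤ Q) (hτ : 0 < τ) (hsmall : Q ^ 50 * τ ≤ 1)
    (P : H →L[ℂ] H) (hP : IsStarProjection P) (hPΩ : P Ω = Ω)
    (ω : V → ℂ) (hω : ∀ a b, a ≠ b → 1 / Q ≤ ‖ω a - ω b‖)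
    (p pR pt pRt : V → H →L[ℂ] H) (Ut URt : H →L[ℂ] H)
    (hp : ∀ a, IsStarProjection (p a)) (hpo : ∀ a b, a ≠ b → p a * p b = 0) (hps : ∑ a, p a = 1)
    (hpR : ∀ a, IsStarProjection (pR a)) (hpRo : ∀ a b, a ≠ b → pR a * pR b = 0)
    (hpRs : ∑ a, pR a = 1)
    (hU : ‖Ut - ∑ a, ω a • p a‖ ≤ Q * τ) (hUR : ‖URt - ∑ a, ω a • pR a‖ ≤ Q * τ)
    (hpt : ∀ a, ‖pt a - p a‖ ≤ Q * τ) (hpRt : ∀ a, ‖pRt a - pR a‖ ≤ Q * τ)
    (hcU : ∀ a, Commute (pt a) Ut) (hcUR : ∀ a, Commute (pRt a) URt)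
    (z zR X : Fin n → H →L[ℂ] H) (v : Fin n → H)
    (hz : ∀ i, ‖z i‖ ≤ Q) (hzR : ∀ i, ‖zR i‖ ≤ Q) (hzΩ : ∀ i, z i Ω = zR i Ω)
    (hXΩ : ∀ i, ‖X i Ω - z i Ω - (τ : ℂ) • v i‖ ≤ Q * τ ^ 2) (hv : ∀ i, ‖v i‖ = 1)
    (hLR : ∀ A ∈ ({Ut} ∪ Set.range p ∪ Set.range pt ∪ Set.range z : Set (H →L[ℂ] H)),
      ∀ B ∈ ({URt} ∪ Set.range pR ∪ Set.range pRt ∪ Set.range zR : Set (H →L[ℂ] H)), Commute A B)
    (hPc : ∀ A ∈ (Set.range pt ∪ Set.range pRt ∪ Set.range X : Set (H →L[ℂ] H)), Commute P A)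
    (N : Finset (V × V)) (hN : ∀ ab ∈ N, ∀ i, (p ab.1 * pR ab.2) (z i Ω) = 0)
    (Pi : H →L[ℂ] H) (hPi : Pi = ∑ ab ∈ N, p ab.1 * pR ab.2) :
    IsStarProjection Pi ∧ ‖P * Pi - Pi * P‖ ≤ Q ^ 4 * τ ∧
      ∃ e₁ e₂ : H, ‖e₁‖ ≤ Q ^ 4 ∧ ‖e₂‖ ≤ Q ^ 4 ∧ ∀ i,
        ‖(1 - P) (Pi (v i) + (Pi * zR i) e₁ + (Pi * z i) e₂)‖ ≤ Q ^ 10 * τ := by
  have hQ0 : 0 < Q := by linarith
  have hQ1 : 1 ≤ Q := by linarith
  obtain ⟨hε1, hτ1⟩ := numeric hQ hτ hsmall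
  have hε : 0 ≤ Q * τ := by positivity
  have cpp : ∀ a b, Commute (p a) (pR b) := fun a b => hLR _ (by simp) _ (by simp)
  have ctp : ∀ a b, Commute (pt a) (pR b) := fun a b => hLR _ (by simp) _ (by simp)
  have cUp : ∀ b, Commute Ut (pR b) := fun b => hLR _ (by simp) _ (by simp)
  have cpt : ∀ a b, Commute (p a) (pRt b) := fun a b => hLR _ (by simp) _ (by simp)
  have cpU : ∀ a, Commute (p a) URt := fun a => hLR _ (by simp) _ (by simp)
  have cUz : ∀ i, Commute Ut (zR i) := fun a => hLR _ (by simp) _ (by simp)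
  have cpz : ∀ a i, Commute (p a) (zR i) := fun a i => hLR _ (by simp) _ (by simp)
  have czU : ∀ i, Commute (z i) URt := fun a => hLR _ (by simp) _ (by simp)
  have czp : ∀ i b, Commute (z i) (pR b) := fun a i => hLR _ (by simp) _ (by simp)
  have cPt : ∀ a, Commute P (pt a) := fun a => hPc _ (by simp)
  have cPR : ∀ a, Commute P (pRt a) := fun a => hPc _ (by simp)
  have cPX : ∀ a, Commute P (X a) := fun a => hPc _ (by simp)
  have hp1 : ∀ a, ‖p a‖ ≤ 1 := fun a => IsStarProjection.norm_le _ (hp a)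
  have hpR1 : ∀ a, ‖pR a‖ ≤ 1 := fun a => IsStarProjection.norm_le _ (hpR a)
  have hP1 : ‖P‖ ≤ 1 := IsStarProjection.norm_le _ hP
  have hP2 : ‖1 - P‖ ≤ 1 := IsStarProjection.norm_le _ hP.one_sub
  have hPis : IsStarProjection Pi := by
    rw [hPi]
    refine isStarProjection_sum N (fun ab : V × V => p ab.1 * pR ab.2)
      (fun ab => (hp _).mul (hpR _) (cpp _ _)) ?_
    rintro ⟨a, b⟩ ⟨a', b'⟩ hne
    have e : p a * pR b * (p a' * pR b') = (p a * p a') * (pR b * pR b') := by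
      rw [mul_assoc, ← mul_assoc (pR b), ← (cpp a' b).eq]; simp only [mul_assoc]
    simp only [e]
    by_cases h : a = a'
    · have h' : b ≠ b' := fun h' => hne (by rw [h, h'])
      rw [hpRo b b' h', mul_zero]
    · rw [hpo a a' h, zero_mul]
  have hPi1 : ‖Pi‖ ≤ 1 := IsStarProjection.norm_le _ hPis
  have hNc : (N.card : ℝ) ≤ Q * Q := by
    have h1 : N.card ≤ Fintype.card V * Fintype.card V := by
      simpa using N.card_le_univ
    have h2 : (N.card : ℝ) ≤ Fintype.card V * Fintype.card V := by exact_mod_cast h1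
    exact h2.trans (by gcongr)
  obtain ⟨W1, hW1⟩ : ∃ W, W = ∑ ab ∈ N, (pt ab.1 - p ab.1) * pR ab.2 := ⟨_, rfl⟩
  obtain ⟨W2, hW2⟩ : ∃ W, W = ∑ ab ∈ N, (pRt ab.2 - pR ab.2) * p ab.1 := ⟨_, rfl⟩
  obtain ⟨W3, hW3⟩ : ∃ W, W = ∑ ab ∈ N, (pt ab.1 - p ab.1) * (pRt ab.2 - pR ab.2) := ⟨_, rfl⟩
  obtain ⟨Pt, hPt⟩ : ∃ W, W = ∑ ab ∈ N, pt ab.1 * pRt ab.2 := ⟨_, rfl⟩
  have hdec : Pt = Pi + (W1 + W2 + W3) := by
    rw [hPt, hPi, hW1, hW2, hW3]
    simp only [← Finset.sum_add_distrib]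
    refine Finset.sum_congr rfl fun ab _ => ?_
    rw [← ((cpt ab.1 ab.2).sub_right (cpp ab.1 ab.2)).eq]
    noncomm_ring
  have n1 : ‖W1‖ ≤ Q * Q * (Q * τ) := by
    rw [hW1]
    refine norm_sum_le_card _ _ hε hNc fun ab _ => (norm_mul_le _ _).trans ?_
    simpa using mul_le_mul (hpt ab.1) (hpR1 ab.2) (norm_nonneg _) hε
  have n2 : ‖W2‖ ≤ Q * Q * (Q * τ) := by
    rw [hW2]
    refine norm_sum_le_card _ _ hε hNc fun ab _ => (norm_mul_le _ _).trans ?_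
    simpa using mul_le_mul (hpRt ab.2) (hp1 ab.1) (norm_nonneg _) hε
  have n3 : ‖W3‖ ≤ Q * Q * ((Q * τ) * (Q * τ)) := by
    rw [hW3]
    refine norm_sum_le_card _ _ (by positivity) hNc fun ab _ => (norm_mul_le _ _).trans ?_
    exact mul_le_mul (hpt ab.1) (hpRt ab.2) (norm_nonneg _) hε
  obtain ⟨W, hW⟩ : ∃ W, W = W1 + W2 + W3 := ⟨_, rfl⟩
  have nW : ‖W‖ ≤ 3 * Q ^ 3 * τ := by
    have h1 : ‖W‖ ≤ ‖W1‖ + ‖W2‖ + ‖W3‖ := by rw [hW]; exact norm_add₃_le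
    have h2 : Q * Q * ((Q * τ) * (Q * τ)) ≤ Q * Q * ((Q * τ) * 1) := by gcongr
    nlinarith
  have cPPt : Commute P Pt := by
    rw [hPt]; exact Commute.sum_right _ _ _ fun ab _ => (cPt _).mul_right (cPR _)
  have hcm : ‖P * Pi - Pi * P‖ ≤ 6 * Q ^ 3 * τ := by
    have e : P * Pi - Pi * P = W * P - P * W := by
      have h1 : Pi = Pt - W := by rw [hdec, hW]; abel
      rw [h1, mul_sub, sub_mul, cPPt.eq]; abel
    rw [e]
    have a1 : ‖W * P‖ ≤ 3 * Q ^ 3 * τ * 1 := (norm_mul_le _ _).trans (by gcongr)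
    have a2 : ‖P * W‖ ≤ 1 * (3 * Q ^ 3 * τ) := (norm_mul_le _ _).trans (by gcongr)
    have := norm_sub_le (W * P) (P * W)
    linarith
  refine ⟨hPis, hcm.trans ?_, ?_⟩
  · have : 6 * Q ^ 3 ≤ Q ^ 4 := by
      have : 0 < Q ^ 3 := by positivity
      nlinarith
    gcongr
  obtain ⟨h, hh⟩ : ∃ h, h = corr ω p (Ut - ∑ a, ω a • p a) := ⟨_, rfl⟩
  obtain ⟨hR, hhR⟩ : ∃ h, h = corr ω pR (URt - ∑ a, ω a • pR a) := ⟨_, rfl⟩
  have nh : ‖h‖ ≤ Q ^ 4 * τ := by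
    rw [hh]
    refine (norm_corr_le hQ0 hVQ hω hp1 _).trans ?_
    calc _ ≤ Q * (Q * (Q * (Q * τ))) := by gcongr
      _ = _ := by ring
  have nhR : ‖hR‖ ≤ Q ^ 4 * τ := by
    rw [hhR]
    refine (norm_corr_le hQ0 hVQ hω hpR1 _).trans ?_
    calc _ ≤ Q * (Q * (Q * (Q * τ))) := by gcongr
      _ = _ := by ring
  have hτC : (τ : ℂ) ≠ 0 := by exact_mod_cast hτ.ne'
  have hτn : ‖(τ : ℂ)‖ = τ := by simp [hτ.le]
  have ne : ∀ T : H →L[ℂ] H, ‖T‖ ≤ Q ^ 4 * τ → ‖(τ : ℂ)⁻¹ • T Ω‖ ≤ Q ^ 4 := by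
    intro T hT
    rw [norm_smul, norm_inv, hτn]
    have := apply_le hT hΩ.le
    calc τ⁻¹ * ‖T Ω‖ ≤ τ⁻¹ * (Q ^ 4 * τ * 1) := by gcongr
      _ = Q ^ 4 := by field_simp
  refine ⟨(τ : ℂ)⁻¹ • h Ω, (τ : ℂ)⁻¹ • hR Ω, ne h nh, ne hR nhR, fun i => ?_⟩
  obtain ⟨y, hy⟩ : ∃ y, y = z i Ω := ⟨_, rfl⟩
  obtain ⟨ρ, hρ⟩ : ∃ ρ, ρ = X i Ω - z i Ω - (τ : ℂ) • v i := ⟨_, rfl⟩
  have ny : ‖y‖ ≤ Q := by rw [hy]; simpa using apply_le (hz i) hΩ.le
  have nρ : ‖ρ‖ ≤ Q * τ ^ 2 := hρ ▸ hXΩ i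
  have hX : X i Ω = y + ((τ : ℂ) • v i + ρ) := by rw [hρ, hy]; abel
  have nvρ : ‖(τ : ℂ) • v i + ρ‖ ≤ 2 * τ := by
    have h1 := norm_add_le ((τ : ℂ) • v i) ρ
    rw [norm_smul, hτn, hv i] at h1
    nlinarith
  have hPiy : Pi y = 0 := by
    rw [hPi, ContinuousLinearMap.sum_apply, hy]
    exact Finset.sum_eq_zero fun ab hab => hN ab hab i
  have hPiPi : ∀ x, Pi (Pi x) = Pi x := fun x => by
    rw [← ContinuousLinearMap.mul_apply, hPis.isIdempotentElem.eq]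
  have o1 : ‖Pi (W1 y) - Pi (h y)‖ ≤ Q * (Q * (Q * (Q * (2 * (Q * τ * (Q * (Q * τ)))))) * Q) := by
    have := oneSided hQ0 hε hVQ hω hp hpo hps hpR hpRo hU hpt hcU cpp ctp cUp
      (fun b => Finset.univ.filter (fun a => (a, b) ∈ N)) y ny
      (fun b a ha => by rw [hy]; exact hN (a, b) (by simpa using ha) i)
    rwa [← sum_pairs_left N (fun a b => p a * pR b),
      ← sum_pairs_left N (fun a b => (pt a - p a) * pR b), ← hPi, ← hW1, ← hh] at this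
  have o2 : ‖Pi (W2 y) - Pi (hR y)‖ ≤ Q * (Q * (Q * (Q * (2 * (Q * τ * (Q * (Q * τ)))))) * Q) := by
    have := oneSided hQ0 hε hVQ hω hpR hpRo hpRs hp hpo hUR hpRt hcUR
      (fun a b => (cpp b a).symm) (fun a b => (cpt b a).symm) (fun b => (cpU b).symm)
      (fun a => Finset.univ.filter (fun b => (a, b) ∈ N)) y ny
      (fun a b hb => by
        rw [hy, ← (cpp a b).eq]; exact hN (a, b) (by simpa using hb) i)
    have hPi' : Pi = ∑ ab ∈ N, pR ab.2 * p ab.1 := by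
      rw [hPi]; exact Finset.sum_congr rfl fun ab _ => (cpp _ _).eq
    rwa [← sum_pairs_right N (fun a b => pR b * p a),
      ← sum_pairs_right N (fun a b => (pRt b - pR b) * p a), ← hPi', ← hW2, ← hhR] at this
  have t1 : (Pi * zR i) ((τ : ℂ)⁻¹ • h Ω) = (τ : ℂ)⁻¹ • Pi (h y) := by
    have c : Commute h (zR i) := hh ▸ commute_corr (fun a => cpz a i) (cUz i)
    rw [map_smul, ContinuousLinearMap.mul_apply, ← ContinuousLinearMap.mul_apply (zR i), ← c.eq,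
      ContinuousLinearMap.mul_apply, ← hzΩ, hy]
  have t2 : (Pi * z i) ((τ : ℂ)⁻¹ • hR Ω) = (τ : ℂ)⁻¹ • Pi (hR y) := by
    have c : Commute hR (z i) := hhR ▸ commute_corr (fun a => (czp i a).symm) (czU i).symm
    rw [map_smul, ContinuousLinearMap.mul_apply, ← ContinuousLinearMap.mul_apply (z i), ← c.eq,
      ContinuousLinearMap.mul_apply, hy]
  obtain ⟨ξ, hξ⟩ : ∃ ξ, ξ = Pt (X i Ω) := ⟨_, rfl⟩
  have hPξ : P ξ = ξ := by
    rw [hξ, ← ContinuousLinearMap.mul_apply P, cPPt.eq, ContinuousLinearMap.mul_apply,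
      ← ContinuousLinearMap.mul_apply P, (cPX i).eq, ContinuousLinearMap.mul_apply, hPΩ]
  have hξ' : ξ = Pi ((τ : ℂ) • v i + ρ) + W y + W ((τ : ℂ) • v i + ρ) := by
    rw [hξ, hdec, ← hW, hX, ContinuousLinearMap.add_apply, map_add Pi y, map_add W y, hPiy]; abel
  have hQ3 : 1 ≤ Q ^ 3 := one_le_pow₀ hQ1
  have nξ : ‖ξ‖ ≤ 4 * Q ^ 4 * τ := by
    have h1 : ‖ξ‖ ≤ ‖Pi ((τ : ℂ) • v i + ρ)‖ + ‖W y‖ + ‖W ((τ : ℂ) • v i + ρ)‖ := by
      rw [hξ']; exact norm_add₃_le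
    have h2 := apply_le hPi1 nvρ
    have h3 := apply_le nW ny
    have h4 := apply_le nW nvρ
    have h5 : 3 * Q ^ 3 * τ * (2 * τ) ≤ 3 * Q ^ 3 * τ * (2 * 1) := by gcongr
    have h6 : τ ≤ Q ^ 3 * τ := by nlinarith
    have h7 : 100 * (Q ^ 3 * τ) ≤ Q * (Q ^ 3 * τ) := by gcongr
    nlinarith
  have main : Pi (v i) + (τ : ℂ)⁻¹ • Pi (h y) + (τ : ℂ)⁻¹ • Pi (hR y) =
      (τ : ℂ)⁻¹ • (Pi ξ - (Pi ρ + (Pi (W1 y) - Pi (h y)) + (Pi (W2 y) - Pi (hR y)) + Pi (W3 y)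
        + Pi (W ((τ : ℂ) • v i + ρ)))) := by
    have e : Pi ξ = (τ : ℂ) • Pi (v i) + Pi ρ + (Pi (W1 y) + Pi (W2 y) + Pi (W3 y))
        + Pi (W ((τ : ℂ) • v i + ρ)) := by
      have eW : W y = W1 y + W2 y + W3 y := by rw [hW]; rfl
      rw [hξ', map_add Pi, map_add Pi, hPiPi, map_add Pi, map_smul, eW, map_add Pi, map_add Pi]
    have e2 : Pi ξ - (Pi ρ + (Pi (W1 y) - Pi (h y)) + (Pi (W2 y) - Pi (hR y)) + Pi (W3 y)
        + Pi (W ((τ : ℂ) • v i + ρ))) = (τ : ℂ) • Pi (v i) + Pi (h y) + Pi (hR y) := by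
      rw [e]; abel
    rw [e2, smul_add, smul_add, smul_smul, inv_mul_cancel₀ hτC, one_smul]
  rw [t1, t2, main, map_smul, norm_smul, norm_inv, hτn, map_sub]
  have b1 : ‖(1 - P) (Pi ξ)‖ ≤ 1 * (6 * Q ^ 3 * τ * (4 * Q ^ 4 * τ)) := by
    have e : (1 - P) (Pi ξ) = -((1 - P) ((P * Pi - Pi * P) ξ)) := by
      have e0 : ∀ x, (1 - P) (P x) = 0 := fun x => by
        rw [← ContinuousLinearMap.mul_apply, hP.one_sub_mul_self]; rfl
      rw [ContinuousLinearMap.sub_apply (P * Pi), map_sub, ContinuousLinearMap.mul_apply,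
        ContinuousLinearMap.mul_apply, e0, hPξ]
      simp
    rw [e, norm_neg]
    exact apply_le hP2 (apply_le hcm nξ)
  have b2 : ‖Pi ρ + (Pi (W1 y) - Pi (h y)) + (Pi (W2 y) - Pi (hR y)) + Pi (W3 y)
        + Pi (W ((τ : ℂ) • v i + ρ))‖ ≤ 1 * (Q * τ ^ 2)
        + Q * (Q * (Q * (Q * (2 * (Q * τ * (Q * (Q * τ)))))) * Q)
        + Q * (Q * (Q * (Q * (2 * (Q * τ * (Q * (Q * τ)))))) * Q)
        + 1 * (Q * Q * ((Q * τ) * (Q * τ)) * Q) + 1 * (3 * Q ^ 3 * τ * (2 * τ)) := by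
    refine norm_add_le_of_le (norm_add_le_of_le (norm_add_le_of_le (norm_add_le_of_le ?_ o1) o2)
      ?_) ?_
    · exact apply_le hPi1 nρ
    · exact apply_le hPi1 (apply_le n3 ny)
    · exact apply_le hPi1 (apply_le nW nvρ)
  have b3 := apply_le hP2 b2
  have b4 := norm_sub_le_of_le b1 b3
  have q1 : Q ≤ Q ^ 8 := le_self_pow₀ hQ1 (by norm_num)
  have q3 : Q ^ 3 ≤ Q ^ 8 := pow_le_pow_right₀ hQ1 (by norm_num)
  have q5 : Q ^ 5 ≤ Q ^ 8 := pow_le_pow_right₀ hQ1 (by norm_num)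
  have q7 : Q ^ 7 ≤ Q ^ 8 := pow_le_pow_right₀ hQ1 (by norm_num)
  have q8 : 36 * Q ^ 8 ≤ Q ^ 10 := by
    have h1 : 36 ≤ Q ^ 2 := by nlinarith
    calc 36 * Q ^ 8 ≤ Q ^ 2 * Q ^ 8 := by gcongr
      _ = Q ^ 10 := by ring
  have fin : 24 * Q ^ 7 + Q + 4 * Q ^ 8 + Q ^ 5 + 6 * Q ^ 3 ≤ Q ^ 10 := by linarith
  calc _ ≤ τ⁻¹ * ((24 * Q ^ 7 + Q + 4 * Q ^ 8 + Q ^ 5 + 6 * Q ^ 3) * τ ^ 2) := by
        gcongr
        refine b4.trans (le_of_eq ?_)
        ring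
    _ ≤ τ⁻¹ * (Q ^ 10 * τ ^ 2) := by gcongr
    _ = Q ^ 10 * τ := by field_simp

end Pool.Agent.MP_ce43bb_an.H64
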